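import Pool.Agent.H13.WcsH

namespace Pool.Agent.Results.MP_52d8fd_co.Classify

open Pool.Agent.H13.Wcs

theorem result :
    (∀ (k : ℕ) (σ : ℕ → ℕ), 1 ≤ k → IsWCS k σ →
      ∃ (t : Start) (l : List Move) (τ : ℕ → ℕ), Der k t l τ ∧ ∀ i ∈ Set.Icc 1 k, τ i = σ i) ∧
    (∀ (k : ℕ) (t t' : Start) (l l' : List Move) (τ τ' : ℕ → ℕ), 12 ≤ k →
      Der k t l τ → Der k t' l' τ' → l.Nodup → l'.Nodup → (∀ i ∈ Set.Icc 1 k, τ i = τ' i) →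
      t = t' ∧ ∀ m, m ∈ l ↔ m ∈ l') := by
  refine ⟨fun k σ hk h => ?_, fun k t t' l l' τ τ' hk h h' nd nd' e =>
    unique hk h h' nd nd' (fun i a b => e i ⟨a, b⟩)⟩
  obtain ⟨t, l, τ, d, e⟩ := der_exists h hk
  exact ⟨t, l, τ, d, fun i hi => e i hi.1 hi.2⟩

end Pool.Agent.Results.MP_52d8fd_co.Classify
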