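import Pool.Agent.H13.WcsF

namespace Pool.Agent.Results.MP_52d8fd_co.Counter

open Pool.Agent.H13.Wcs

def ex (i : ℕ) : ℕ :=
  [22, 3, 4, 5, 6, 7, 8, 9, 10, 13, 12, 11, 14, 15, 16, 17, 18, 19, 20, 21, 2, 1].getD (i - 1) 0

theorem ex_eq : ∀ i, 1 ≤ i → i ≤ 22 → ex i = start 22 .extra i := by
  intro i h1 h2
  interval_cases i <;> rfl

theorem ex_wcs : IsWCS 22 ex := by
  have maps : Set.MapsTo ex (Set.Icc 1 22) (Set.Icc 1 22) := by
    intro i hi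
    obtain ⟨h1, h2⟩ := hi
    interval_cases i <;> exact ⟨by decide, by decide⟩
  apply IsWCS.of
  · refine ((Set.finite_Icc _ _).injOn_iff_bijOn_of_mapsTo maps).1 ?_
    have : ∀ i < 23, ∀ j < 23, 1 ≤ i → 1 ≤ j → ex i = ex j → i = j := by decide +kernel
    intro i hi j hj e
    exact this i (by have := hi.2; omega) j (by have := hj.2; omega) hi.1 hj.1 e
  · have key : ∀ i < 23, ∀ j < 23, ∀ m < 23, (1 ≤ i ∧ 1 ≤ j ∧ ex i % m = 0 ∧ i % m = j % m) →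
        ex j % m = 0 := by decide +kernel
    intro i j m h1 h2 h3 h4 _ hd e
    have c := maps (show i ∈ Set.Icc 1 22 from ⟨h1, h2⟩)
    have c2 := Nat.le_of_dvd c.1 hd
    have c3 := c.2
    exact Nat.dvd_of_mod_eq_zero (key i (by omega) j (by omega) m (by omega)
      ⟨h1, h3, Nat.mod_eq_zero_of_dvd hd, e⟩)

theorem result : IsWCS 22 ex ∧ ¬ ∃ (t : Start) (l : List Move) (τ : ℕ → ℕ),
    t ≠ Start.extra ∧ Der 22 t l τ ∧ ∀ i ∈ Set.Icc 1 22, τ i = ex i := by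
  refine ⟨ex_wcs, ?_⟩
  rintro ⟨t, l, τ, ht, h, e⟩
  exact ht (not_four (by omega) ⟨11, rfl, by norm_num, by norm_num, by norm_num⟩ h
    (fun i a b => (e i ⟨a, b⟩).trans (ex_eq i a b)))

end Pool.Agent.Results.MP_52d8fd_co.Counter
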